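import Pool.Agent.H62.NSin.Approx

/-!
Arithmetic of `2π`: the periods `q1 N`, `q2 N` and their displacements (module M5a of H63/NS).
-/

set_option autoImplicit false

namespace Pool.Agent.H43.NS

open Filter Finset Topology Real Pool.Agent.H62.NSin

/-- Best approximation below the scale `X`. -/
noncomputable def ff (X : ℕ) : ℕ := sInf {q : ℕ | 0 < q ∧ nd q ≤ 1 / ((X : ℝ) + 1)}

/-- The nearest multiple of `2π`. -/
noncomputable def pr (q : ℕ) : ℤ := round ((q : ℝ) * xi)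

/-- The displacement. -/
noncomputable def dl (q : ℕ) : ℝ := q - 2 * π * pr q

theorem dl_abs (q : ℕ) : |dl q| = 2 * π * nd q := by
  unfold dl nd pr
  have hpi := Real.pi_pos
  have : (q : ℝ) - 2 * π * (round ((q : ℝ) * xi) : ℤ)
      = (2 * π) * (q * xi - (round ((q : ℝ) * xi) : ℤ)) := by
    unfold xi; field_simp
  rw [this, abs_mul, abs_of_pos (by positivity)]

theorem ff_exists {X : ℕ} (hX : 0 < X) : ∃ q : ℕ, 0 < q ∧ q ≤ X ∧ nd q ≤ 1 / ((X : ℝ) + 1) := by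
  obtain ⟨k, hk0, hk1, hk2⟩ := Real.exists_nat_abs_mul_sub_round_le xi hX
  exact ⟨k, hk0, hk1, hk2⟩

theorem ff_mem {X : ℕ} (hX : 0 < X) : 0 < ff X ∧ nd (ff X) ≤ 1 / ((X : ℝ) + 1) := by
  obtain ⟨q, h1, _, h3⟩ := ff_exists hX
  exact Nat.sInf_mem (s := {q : ℕ | 0 < q ∧ nd q ≤ 1 / ((X : ℝ) + 1)}) ⟨q, h1, h3⟩

theorem ff_le {X : ℕ} (hX : 0 < X) : ff X ≤ X := by
  obtain ⟨q, h1, h2, h3⟩ := ff_exists hX
  have h4 : ff X ≤ q := Nat.sInf_le (s := {q : ℕ | 0 < q ∧ nd q ≤ 1 / ((X : ℝ) + 1)}) ⟨h1, h3⟩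
  exact h4.trans h2

theorem ff_lt {X m : ℕ} (hm : 0 < m) (h : m < ff X) : 1 / ((X : ℝ) + 1) < nd m := by
  have := Nat.notMem_of_lt_sInf (s := {q : ℕ | 0 < q ∧ nd q ≤ 1 / ((X : ℝ) + 1)}) h
  simp only [Set.mem_ofPred_eq, not_and, not_le] at this
  exact this hm

theorem ff_tendsto : Tendsto ff atTop atTop := by
  rw [tendsto_atTop]
  intro b
  have h1 : ∀ m ∈ Finset.Ioo 0 b, ∀ᶠ X : ℕ in atTop, 1 / ((X : ℝ) + 1) < nd m := by
    intro m hm
    rw [Finset.mem_Ioo] at hm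
    exact (tendsto_one_div_add_atTop_nhds_zero_nat (𝕜 := ℝ)).eventually (gt_mem_nhds (nd_pos hm.1))
  rw [← Filter.eventually_all_finset] at h1
  filter_upwards [h1, eventually_gt_atTop 0] with X hX hX0
  by_contra hcon
  push Not at hcon
  have h3 := ff_mem hX0
  have := hX (ff X) (Finset.mem_Ioo.2 ⟨h3.1, hcon⟩)
  linarith [h3.2]

/-- The least scale `X` with `N ≤ X * ff X`. -/
noncomputable def XX (N : ℕ) : ℕ := sInf {X : ℕ | 0 < X ∧ N ≤ X * ff X}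

theorem XX_mem {N : ℕ} (hN : 0 < N) : 0 < XX N ∧ N ≤ XX N * ff (XX N) := by
  refine Nat.sInf_mem (s := {X : ℕ | 0 < X ∧ N ≤ X * ff X}) ⟨N, hN, ?_⟩
  have := (ff_mem hN).1
  nlinarith

theorem XX_le {N : ℕ} (hN : 0 < N) : XX N ≤ N := by
  refine Nat.sInf_le ⟨hN, ?_⟩
  have := (ff_mem hN).1
  nlinarith

theorem XX_lt {N X : ℕ} (hX : 0 < X) (h : X < XX N) : X * ff X < N := by
  have := Nat.notMem_of_lt_sInf (s := {X : ℕ | 0 < X ∧ N ≤ X * ff X}) h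
  simp only [Set.mem_ofPred_eq, not_and, not_le] at this
  exact this hX

theorem XX_tendsto : Tendsto XX atTop atTop := by
  rw [tendsto_atTop]
  intro b
  filter_upwards [eventually_gt_atTop (b * b), eventually_gt_atTop 0] with N hN hN0
  by_contra hcon
  push Not at hcon
  have h1 := XX_mem hN0
  have h2 := ff_le h1.1
  nlinarith

/-- The first period. -/
noncomputable def q1 (N : ℕ) : ℕ := ff (XX N)

/-- The second period. -/
noncomputable def q2 (N : ℕ) : ℕ := ff (q1 N - 1)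

noncomputable def p1 (N : ℕ) : ℤ := pr (q1 N)

noncomputable def p2 (N : ℕ) : ℤ := pr (q2 N)

noncomputable def d1 (N : ℕ) : ℝ := dl (q1 N)

noncomputable def d2 (N : ℕ) : ℝ := dl (q2 N)

theorem q1_pos {N : ℕ} (hN : 0 < N) : 0 < q1 N := (ff_mem (XX_mem hN).1).1

theorem q1_le_XX {N : ℕ} (hN : 0 < N) : q1 N ≤ XX N := ff_le (XX_mem hN).1

theorem q1_le {N : ℕ} (hN : 0 < N) : q1 N ≤ N := (q1_le_XX hN).trans (XX_le hN)

theorem nd_q1 {N : ℕ} (hN : 0 < N) : nd (q1 N) ≤ 1 / ((XX N : ℝ) + 1) := (ff_mem (XX_mem hN).1).2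

theorem q1_nd {N : ℕ} (hN : 0 < N) : (q1 N : ℝ) * nd (q1 N) ≤ 1 := by
  have h1 := nd_q1 hN
  have h2 : (q1 N : ℝ) ≤ XX N := by exact_mod_cast q1_le_XX hN
  have h3 : (0 : ℝ) ≤ XX N := by positivity
  have h4 := nd_nonneg (q1 N)
  calc (q1 N : ℝ) * nd (q1 N) ≤ XX N * (1 / ((XX N : ℝ) + 1)) := by gcongr
    _ ≤ 1 := by
        rw [mul_one_div, div_le_one (by positivity)]
        linarith

theorem N_nd {N : ℕ} (hN : 0 < N) : (N : ℝ) * nd (q1 N) ≤ q1 N := by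
  have h1 := nd_q1 hN
  have h2 : (N : ℝ) ≤ XX N * q1 N := by exact_mod_cast (XX_mem hN).2
  have h3 : (0 : ℝ) ≤ XX N := by positivity
  calc (N : ℝ) * nd (q1 N) ≤ (XX N * q1 N) * (1 / ((XX N : ℝ) + 1)) := by
        gcongr
        exact nd_nonneg _
    _ ≤ q1 N := by
        rw [mul_one_div, div_le_iff₀ (by positivity)]
        have : (0 : ℝ) ≤ q1 N := by positivity
        nlinarith

theorem q1_d1 {N : ℕ} (hN : 0 < N) : (q1 N : ℝ) * |d1 N| ≤ 2 * π := by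
  unfold d1
  rw [dl_abs]
  have := q1_nd hN
  have hpi := Real.pi_pos
  nlinarith

theorem N_d1 {N : ℕ} (hN : 0 < N) : (N : ℝ) * |d1 N| ≤ 2 * π * q1 N := by
  unfold d1
  rw [dl_abs]
  have := N_nd hN
  have hpi := Real.pi_pos
  nlinarith

theorem N_d1_sq {N : ℕ} (hN : 0 < N) : (N : ℝ) * |d1 N| ^ 2 ≤ 4 * π ^ 2 := by
  have h1 := N_d1 hN
  have h2 := q1_d1 hN
  have hpi := Real.pi_pos
  calc (N : ℝ) * |d1 N| ^ 2 = (N * |d1 N|) * |d1 N| := by ring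
    _ ≤ (2 * π * q1 N) * |d1 N| := by gcongr
    _ = 2 * π * (q1 N * |d1 N|) := by ring
    _ ≤ 2 * π * (2 * π) := by gcongr
    _ = _ := by ring

theorem q1_tendsto : Tendsto q1 atTop atTop := ff_tendsto.comp XX_tendsto

theorem q1_small {ε : ℝ} (hε : 0 < ε) : ∀ᶠ N : ℕ in atTop, (q1 N : ℝ) ≤ ε * N := by
  obtain ⟨R, hR⟩ := exists_nat_gt (2 / ε)
  have hR0 : (0 : ℝ) < R := lt_of_le_of_lt (by positivity) hR
  have h1 := (tendsto_atTop.1 ff_tendsto) R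
  obtain ⟨X0, hX0⟩ := Filter.eventually_atTop.1 h1
  filter_upwards [(tendsto_atTop.1 XX_tendsto) (X0 + 2), eventually_gt_atTop 0] with N hN hN0
  have h2 : (XX N - 1) * ff (XX N - 1) < N := XX_lt (by omega) (by omega)
  have h3 := hX0 (XX N - 1) (by omega)
  have h4 : ((XX N - 1 : ℕ) : ℝ) * R ≤ N := by
    have : (XX N - 1) * R ≤ N := le_trans (Nat.mul_le_mul_left _ h3) h2.le
    exact_mod_cast this
  have h5 : (XX N : ℝ) ≤ 2 * ((XX N - 1 : ℕ) : ℝ) := by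
    have : XX N ≤ 2 * (XX N - 1) := by omega
    exact_mod_cast this
  have h6 : (q1 N : ℝ) ≤ XX N := by exact_mod_cast q1_le_XX hN0
  have h7 : 2 ≤ R * ε := by
    rw [div_lt_iff₀ hε] at hR
    exact hR.le
  have h8 : (0 : ℝ) ≤ ((XX N - 1 : ℕ) : ℝ) := by positivity
  calc (q1 N : ℝ) ≤ 2 * ((XX N - 1 : ℕ) : ℝ) := h6.trans h5
    _ ≤ (R * ε) * ((XX N - 1 : ℕ) : ℝ) := by gcongr
    _ = ε * (((XX N - 1 : ℕ) : ℝ) * R) := by ring
    _ ≤ ε * N := by gcongr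

theorem d1_tendsto : Tendsto (fun N => |d1 N|) atTop (𝓝 0) := by
  have h1 : Tendsto (fun N : ℕ => 2 * π * (1 / ((XX N : ℝ) + 1))) atTop (𝓝 (2 * π * 0)) := by
    refine Tendsto.const_mul _ ?_
    exact (tendsto_one_div_add_atTop_nhds_zero_nat (𝕜 := ℝ)).comp XX_tendsto
  rw [mul_zero] at h1
  refine squeeze_zero' (Eventually.of_forall fun N => abs_nonneg _) ?_ h1
  filter_upwards [eventually_gt_atTop 0] with N hN
  unfold d1
  rw [dl_abs]
  have := nd_q1 hN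
  have hpi := Real.pi_pos
  gcongr

/-- The second period. -/
theorem q2_spec {N : ℕ} (h : 2 ≤ q1 N) : 0 < q2 N ∧ q2 N < q1 N ∧ nd (q2 N) ≤ 1 / (q1 N : ℝ) := by
  have h0 : 0 < q1 N - 1 := by omega
  have h1 := ff_mem h0
  have h2 := ff_le h0
  have h3 : ((q1 N - 1 : ℕ) : ℝ) + 1 = q1 N := by
    have : q1 N - 1 + 1 = q1 N := by omega
    exact_mod_cast this
  rw [h3] at h1
  exact ⟨h1.1, by unfold q2; omega, h1.2⟩

theorem q1_d2 {N : ℕ} (h : 2 ≤ q1 N) : (q1 N : ℝ) * |d2 N| ≤ 2 * π := by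
  unfold d2
  rw [dl_abs]
  have h1 := (q2_spec h).2.2
  have hq : (0 : ℝ) < q1 N := by
    have : 0 < q1 N := by omega
    exact_mod_cast this
  have hpi := Real.pi_pos
  calc (q1 N : ℝ) * (2 * π * nd (q2 N)) ≤ q1 N * (2 * π * (1 / (q1 N : ℝ))) := by gcongr
    _ = 2 * π := by field_simp

theorem q2_d1 {N : ℕ} (h : 2 ≤ q1 N) : (q2 N : ℝ) * |d1 N| ≤ q1 N * |d1 N| := by
  have h1 : (q2 N : ℝ) ≤ q1 N := by exact_mod_cast (q2_spec h).2.1.le
  gcongr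

theorem N_d1_d2 {N : ℕ} (hN : 0 < N) (h : 2 ≤ q1 N) : (N : ℝ) * |d1 N| * |d2 N| ≤ 4 * π ^ 2 := by
  have h1 := N_d1 hN
  have h2 := q1_d2 h
  have hpi := Real.pi_pos
  calc (N : ℝ) * |d1 N| * |d2 N| ≤ (2 * π * q1 N) * |d2 N| := by gcongr
    _ = 2 * π * (q1 N * |d2 N|) := by ring
    _ ≤ 2 * π * (2 * π) := by gcongr
    _ = _ := by ring

theorem d2_tendsto : Tendsto (fun N => |d2 N|) atTop (𝓝 0) := by
  have h1 : Tendsto (fun N : ℕ => 2 * π * (1 / (q1 N : ℝ))) atTop (𝓝 (2 * π * 0)) := by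
    refine Tendsto.const_mul _ ?_
    exact (tendsto_one_div_atTop_nhds_zero_nat (𝕜 := ℝ)).comp q1_tendsto
  rw [mul_zero] at h1
  refine squeeze_zero' (Eventually.of_forall fun N => abs_nonneg _) ?_ h1
  filter_upwards [(tendsto_atTop.1 q1_tendsto) 2] with N hN
  unfold d2
  rw [dl_abs]
  have := (q2_spec hN).2.2
  have hpi := Real.pi_pos
  gcongr

/-- The determinant. -/
theorem det_ge {N : ℕ} (hN : 0 < N) (h : 2 ≤ q1 N) :
    2 * π ≤ |(q1 N : ℝ) * d2 N - q2 N * d1 N| := by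
  have hpi := Real.pi_pos
  obtain ⟨g1, g2, g3⟩ := q2_spec h
  have e1 : (q1 N : ℝ) * d2 N - q2 N * d1 N = 2 * π * ((q2 N * p1 N - q1 N * p2 N : ℤ) : ℝ) := by
    unfold d1 d2 dl p1 p2
    push_cast
    ring
  have e2 : (q2 N * p1 N - q1 N * p2 N : ℤ) ≠ 0 := by
    intro h0
    rw [h0] at e1
    have e3 : (q1 N : ℝ) * |d2 N| = q2 N * |d1 N| := by
      have h1 : (q1 N : ℝ) * d2 N = q2 N * d1 N := by
        have : (q1 N : ℝ) * d2 N - q2 N * d1 N = 0 := by rw [e1]; simp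
        linarith
      have h2 := congrArg abs h1
      rwa [abs_mul, abs_mul, Nat.abs_cast, Nat.abs_cast] at h2
    have e4 : |d1 N| < |d2 N| := by
      unfold d1 d2
      rw [dl_abs, dl_abs]
      have h1 := nd_q1 hN
      have h2 : 1 / ((XX N : ℝ) + 1) < nd (q2 N) := ff_lt g1 g2
      have : nd (q1 N) < nd (q2 N) := lt_of_le_of_lt h1 h2
      have h2pi : 0 < 2 * π := by positivity
      exact mul_lt_mul_of_pos_left this h2pi
    have h3 : (q2 N : ℝ) < q1 N := by exact_mod_cast g2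
    have h4 : (0 : ℝ) < q2 N := by exact_mod_cast g1
    have h5 := abs_nonneg (d1 N)
    nlinarith
  rw [e1, abs_mul, abs_of_pos (by positivity : 0 < 2 * π)]
  have e3 : (1 : ℝ) ≤ |((q2 N * p1 N - q1 N * p2 N : ℤ) : ℝ)| := by
    have : 1 ≤ |(q2 N * p1 N - q1 N * p2 N : ℤ)| := Int.one_le_abs e2
    exact_mod_cast this
  have h2pi : 0 ≤ 2 * π := by positivity
  calc 2 * π = 2 * π * 1 := by ring
    _ ≤ _ := mul_le_mul_of_nonneg_left e3 h2pi

theorem gcd_one {N : ℕ} (hN : 0 < N) : Int.gcd (q1 N) (p1 N) = 1 := by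
  by_contra hne
  have hq := q1_pos hN
  set d : ℕ := Int.gcd (q1 N) (p1 N) with hd
  have hd0 : d ≠ 0 := by
    intro h0
    rw [hd, Int.gcd_eq_zero_iff] at h0
    have := h0.1
    omega
  have hd2 : 2 ≤ d := by omega
  obtain ⟨a, ha⟩ : (d : ℤ) ∣ (q1 N : ℤ) := Int.gcd_dvd_left _ _
  obtain ⟨b, hb⟩ : (d : ℤ) ∣ p1 N := Int.gcd_dvd_right _ _
  have ha0 : 0 < a := by
    have h1 : (0 : ℤ) < q1 N := by exact_mod_cast hq
    rw [ha] at h1
    by_contra hc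
    have : (d : ℤ) * a ≤ 0 := mul_nonpos_of_nonneg_of_nonpos (by positivity) (by omega)
    omega
  obtain ⟨a', rfl⟩ := Int.eq_ofNat_of_zero_le ha0.le
  have ha' : q1 N = d * a' := by exact_mod_cast ha
  have ha0' : 0 < a' := by exact_mod_cast ha0
  have hlt : a' < q1 N := by rw [ha']; nlinarith
  have h1 : 1 / ((XX N : ℝ) + 1) < nd a' := ff_lt ha0' hlt
  have h2 : nd a' ≤ |(a' : ℝ) * xi - (b : ℤ)| := nd_le a' b
  have h3 : (d : ℝ) * |(a' : ℝ) * xi - (b : ℤ)| = nd (q1 N) := by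
    unfold nd
    have e1 : round ((q1 N : ℝ) * xi) = p1 N := rfl
    rw [e1]
    have e2 : (q1 N : ℝ) = d * a' := by exact_mod_cast ha'
    have e3 : ((p1 N : ℤ) : ℝ) = d * b := by exact_mod_cast hb
    rw [e3, e2]
    have hdr : (0 : ℝ) ≤ d := by positivity
    rw [← abs_of_nonneg hdr, ← abs_mul, abs_of_nonneg hdr]
    congr 1
    ring
  have h4 := nd_q1 hN
  have h5 : (2 : ℝ) ≤ d := by exact_mod_cast hd2
  have h6 : 0 ≤ |(a' : ℝ) * xi - (b : ℤ)| := abs_nonneg _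
  nlinarith

end Pool.Agent.H43.NS
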