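import Pool.Agent.H62.NSin.Local

/-!
Taylor bounds for sine and cosine and the local expansions of `n sin n` and of its linear and
quadratic coefficients, with abstract parameters (module M5a of H63/NS).
-/

set_option autoImplicit false

namespace Pool.Agent.H43.NS

open Real Pool.Agent.H62.NSin

/-- Second order expansion of the sine. -/
theorem sin_add_bound2 (a x : ℝ) :
    |Real.sin (a + x) - Real.sin a - x * Real.cos a + x ^ 2 / 2 * Real.sin a| ≤ 3 * |x| ^ 3 := by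
  have e : Real.sin (a + x) - Real.sin a - x * Real.cos a + x ^ 2 / 2 * Real.sin a
      = Real.sin a * (Real.cos x - 1 + x ^ 2 / 2) + Real.cos a * (Real.sin x - x) := by
    rw [Real.sin_add]; ring
  have hs : |Real.sin x - x| ≤ |x| ^ 3 := by
    have h1 := Real.sin_le (abs_nonneg x)
    have h2 : |x| - |x| ^ 3 / 6 ≤ Real.sin |x| := by
      rcases (abs_nonneg x).eq_or_lt with h0 | h0
      · rw [← h0]; simp
      · exact (Real.sin_gt_sub_cube h0).le
    have h3 : |Real.sin x - x| = |x| - Real.sin |x| ∨ |Real.sin x - x| = -(|x| - Real.sin |x|) := by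
      rcases le_total 0 x with hx | hx
      · rw [abs_of_nonneg hx, abs_sub_comm]
        exact abs_choice _
      · rw [abs_of_nonpos hx, Real.sin_neg]
        have : Real.sin x - x = -x - -Real.sin x := by ring
        rw [this]
        exact abs_choice _
    have h4 : 0 ≤ |x| - Real.sin |x| := by linarith
    have h5 : |Real.sin x - x| = |x| - Real.sin |x| := by
      rcases h3 with h | h
      · exact h
      · have := abs_nonneg (Real.sin x - x)
        linarith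
    rw [h5]
    have : 0 ≤ |x| ^ 3 := by positivity
    linarith
  have hc : |Real.cos x - 1 + x ^ 2 / 2| ≤ 2 * |x| ^ 3 := by
    have h1 := Real.one_sub_sq_div_two_le_cos (x := x)
    have h0 : 0 ≤ Real.cos x - 1 + x ^ 2 / 2 := by linarith
    rw [abs_of_nonneg h0]
    rcases le_or_gt |x| 1 with h | h
    · have h2 := Real.cos_bound h
      have h3 := (abs_le.1 h2).2
      have h4 : |x| ^ 4 ≤ |x| ^ 3 := pow_le_pow_of_le_one (abs_nonneg _) h (by norm_num)
      have : 0 ≤ |x| ^ 3 := by positivity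
      linarith
    · have h2 := Real.cos_le_one x
      have h3 : |x| ^ 2 ≤ |x| ^ 3 := by
        have : |x| ^ 3 = |x| ^ 2 * |x| := by ring
        nlinarith [sq_nonneg |x|]
      have h4 : x ^ 2 = |x| ^ 2 := (sq_abs x).symm
      nlinarith [sq_nonneg x]
  rw [e]
  refine (abs_add_le _ _).trans ?_
  rw [abs_mul, abs_mul]
  have h1 := Real.abs_sin_le_one a
  have h2 := Real.abs_cos_le_one a
  calc |Real.sin a| * |Real.cos x - 1 + x ^ 2 / 2| + |Real.cos a| * |Real.sin x - x|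
      ≤ 1 * (2 * |x| ^ 3) + 1 * |x| ^ 3 := by gcongr
    _ = _ := by ring

theorem cos_add_bound (a x : ℝ) :
    |Real.cos (a + x) - Real.cos a + x * Real.sin a| ≤ 3 * x ^ 2 := by
  have e : Real.cos (a + x) - Real.cos a + x * Real.sin a
      = Real.cos a * (Real.cos x - 1) - Real.sin a * (Real.sin x - x) := by
    rw [Real.cos_add]; ring
  rw [e]
  refine (abs_sub _ _).trans ?_
  rw [abs_mul, abs_mul]
  have h1 := Real.abs_sin_le_one a
  have h2 := Real.abs_cos_le_one a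
  have h3 := abs_sin_sub_self_le x
  have h4 := abs_cos_sub_one_le x
  have h5 : |Real.cos a| * |Real.cos x - 1| ≤ 1 * x ^ 2 := by gcongr
  have h6 : |Real.sin a| * |Real.sin x - x| ≤ 1 * (2 * x ^ 2) := by gcongr
  linarith

/-- Expansion of `u`. -/
theorem u_gen {Q δ M n : ℝ} (k : ℕ) (a : ℝ) (hQ : 0 ≤ Q) (hn : 0 ≤ n) (hn2 : n ≤ 2 * M) (hQM : Q ≤ M)
    (h1 : Q * |δ| ≤ 2 * π) (h2 : M * |δ| ^ 2 ≤ 4 * π ^ 2) :
    |(n + k * Q) * Real.sin (a + k * δ) - (n * Real.sin a + k * (Q * Real.sin a + n * δ * Real.cos a)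
      + k ^ 2 * (Q * δ * Real.cos a - n * δ ^ 2 / 2 * Real.sin a))|
      ≤ ((2 + k) * (3 * k ^ 3) * (4 * π ^ 2) + k ^ 3 * (2 * π)) * |δ| := by
  have hpi := Real.pi_pos
  have hM : 0 ≤ M := by linarith
  have hk : (0 : ℝ) ≤ k := by positivity
  have e : (n + k * Q) * Real.sin (a + k * δ) - (n * Real.sin a + k * (Q * Real.sin a + n * δ * Real.cos a)
      + k ^ 2 * (Q * δ * Real.cos a - n * δ ^ 2 / 2 * Real.sin a))
      = (n + k * Q) * (Real.sin (a + k * δ) - Real.sin a - (k * δ) * Real.cos a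
          + (k * δ) ^ 2 / 2 * Real.sin a) - k ^ 3 * (Q * δ ^ 2) / 2 * Real.sin a := by
    ring
  rw [e]
  refine (abs_sub _ _).trans ?_
  have a1 : |(n + k * Q) * (Real.sin (a + k * δ) - Real.sin a - (k * δ) * Real.cos a
          + (k * δ) ^ 2 / 2 * Real.sin a)| ≤ (2 + k) * (3 * k ^ 3) * (4 * π ^ 2) * |δ| := by
    rw [abs_mul, abs_of_nonneg (by positivity)]
    have b1 := sin_add_bound2 a (k * δ)
    have b2 : M * |δ| ^ 3 ≤ 4 * π ^ 2 * |δ| := by
      calc M * |δ| ^ 3 = M * |δ| ^ 2 * |δ| := by ring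
        _ ≤ _ := by gcongr
    calc (n + k * Q) * |Real.sin (a + k * δ) - Real.sin a - (k * δ) * Real.cos a
          + (k * δ) ^ 2 / 2 * Real.sin a| ≤ (2 * M + k * M) * (3 * |k * δ| ^ 3) := by gcongr
      _ = (2 + k) * (3 * k ^ 3) * (M * |δ| ^ 3) := by
          rw [abs_mul, Nat.abs_cast]; ring
      _ ≤ (2 + k) * (3 * k ^ 3) * (4 * π ^ 2 * |δ|) := by gcongr
      _ = _ := by ring
  have a2 : |(k : ℝ) ^ 3 * (Q * δ ^ 2) / 2 * Real.sin a| ≤ (k : ℝ) ^ 3 * (2 * π) * |δ| := by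
    have b2 := Real.abs_sin_le_one a
    rw [abs_mul, abs_div, abs_mul, abs_mul, abs_pow, abs_pow, Nat.abs_cast, abs_of_nonneg hQ,
      abs_of_pos (by norm_num : (0 : ℝ) < 2)]
    calc (k : ℝ) ^ 3 * (Q * |δ| ^ 2) / 2 * |Real.sin a|
        ≤ (k : ℝ) ^ 3 * (Q * |δ| ^ 2) / 1 * 1 := by gcongr; norm_num
      _ = (k : ℝ) ^ 3 * ((Q * |δ|) * |δ|) := by ring
      _ ≤ (k : ℝ) ^ 3 * ((2 * π) * |δ|) := by gcongr
      _ = _ := by ring
  calc _ ≤ (2 + k) * (3 * k ^ 3) * (4 * π ^ 2) * |δ| + (k : ℝ) ^ 3 * (2 * π) * |δ| := add_le_add a1 a2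
    _ = _ := by ring

/-- Expansion of `b` along a shift with displacement `e`. -/
theorem b_gen {Q δ R e M n : ℝ} (k : ℕ) (a : ℝ) (hQ : 0 ≤ Q) (hR : 0 ≤ R) (hn : 0 ≤ n)
    (hn2 : n ≤ 2 * M) (h1 : Q * |e| ≤ 2 * π) (h2 : R * |δ| ≤ 2 * π)
    (h3 : M * |δ| * |e| ≤ 4 * π ^ 2) :
    |Q * Real.sin (a + k * e) + (n + k * R) * δ * Real.cos (a + k * e)
      - ((Q * Real.sin a + n * δ * Real.cos a)
        + k * ((Q * e + R * δ) * Real.cos a - n * (δ * e) * Real.sin a))|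
      ≤ (8 * k ^ 2 * π + 24 * k ^ 2 * π ^ 2) * |e| := by
  have hpi := Real.pi_pos
  have hM : 0 ≤ M := by linarith
  have hk : (0 : ℝ) ≤ k := by positivity
  have ee : Q * Real.sin (a + k * e) + (n + k * R) * δ * Real.cos (a + k * e)
      - ((Q * Real.sin a + n * δ * Real.cos a)
        + k * ((Q * e + R * δ) * Real.cos a - n * (δ * e) * Real.sin a))
      = Q * (Real.sin (a + k * e) - Real.sin a - (k * e) * Real.cos a)
        + (k * R * δ * (Real.cos (a + k * e) - Real.cos a)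
        + n * δ * (Real.cos (a + k * e) - Real.cos a + (k * e) * Real.sin a)) := by
    ring
  rw [ee]
  have a1 : |Q * (Real.sin (a + k * e) - Real.sin a - (k * e) * Real.cos a)|
      ≤ 3 * k ^ 2 * (2 * π) * |e| := by
    rw [abs_mul, abs_of_nonneg hQ]
    have := sin_add_bound a (k * e)
    calc Q * |Real.sin (a + k * e) - Real.sin a - (k * e) * Real.cos a| ≤ Q * (3 * (k * e) ^ 2) := by
          gcongr
      _ = 3 * k ^ 2 * (Q * |e|) * |e| := by
          rw [mul_pow, ← sq_abs e]; ring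
      _ ≤ 3 * k ^ 2 * (2 * π) * |e| := by gcongr
  have a2 : |k * R * δ * (Real.cos (a + k * e) - Real.cos a)| ≤ k ^ 2 * (2 * π) * |e| := by
    rw [abs_mul, abs_mul, abs_mul, abs_of_nonneg hR, Nat.abs_cast]
    have := cos_lip a (k * e)
    rw [abs_mul, Nat.abs_cast] at this
    calc k * R * |δ| * |Real.cos (a + k * e) - Real.cos a| ≤ k * R * |δ| * (k * |e|) := by gcongr
      _ = k ^ 2 * (R * |δ|) * |e| := by ring
      _ ≤ k ^ 2 * (2 * π) * |e| := by gcongr
  have a3 : |n * δ * (Real.cos (a + k * e) - Real.cos a + (k * e) * Real.sin a)|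
      ≤ 6 * k ^ 2 * (4 * π ^ 2) * |e| := by
    rw [abs_mul, abs_mul, abs_of_nonneg hn]
    have := cos_add_bound a (k * e)
    calc n * |δ| * |Real.cos (a + k * e) - Real.cos a + (k * e) * Real.sin a|
        ≤ (2 * M) * |δ| * (3 * (k * e) ^ 2) := by gcongr
      _ = 6 * k ^ 2 * (M * |δ| * |e|) * |e| := by
          rw [mul_pow, ← sq_abs e]; ring
      _ ≤ 6 * k ^ 2 * (4 * π ^ 2) * |e| := by gcongr
  calc _ ≤ 3 * k ^ 2 * (2 * π) * |e| + (k ^ 2 * (2 * π) * |e| + 6 * k ^ 2 * (4 * π ^ 2) * |e|) :=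
        (abs_add_le _ _).trans (add_le_add a1 ((abs_add_le _ _).trans (add_le_add a2 a3)))
    _ = _ := by ring

/-- Stability of the quadratic coefficient. -/
theorem c_gen {Q δ R e M n : ℝ} (a : ℝ) (hQ : 0 ≤ Q) (hR : 0 ≤ R) (hn : 0 ≤ n)
    (hn2 : n ≤ 2 * M) (h1 : Q * |e| ≤ 2 * π) (h2 : R * |δ| ≤ 2 * π)
    (h3 : M * |δ| * |e| ≤ 4 * π ^ 2) :
    |(Q * δ * Real.cos (a + e) - (n + R) * δ ^ 2 / 2 * Real.sin (a + e))
      - (Q * δ * Real.cos a - n * δ ^ 2 / 2 * Real.sin a)| ≤ (4 * π + 4 * π ^ 2) * |δ| := by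
  have hpi := Real.pi_pos
  have hM : 0 ≤ M := by linarith
  have ee : (Q * δ * Real.cos (a + e) - (n + R) * δ ^ 2 / 2 * Real.sin (a + e))
      - (Q * δ * Real.cos a - n * δ ^ 2 / 2 * Real.sin a)
      = Q * δ * (Real.cos (a + e) - Real.cos a)
        + (- (n * δ ^ 2 / 2 * (Real.sin (a + e) - Real.sin a))
        + - (R * δ ^ 2 / 2 * Real.sin (a + e))) := by
    ring
  rw [ee]
  have a1 : |Q * δ * (Real.cos (a + e) - Real.cos a)| ≤ 2 * π * |δ| := by
    rw [abs_mul, abs_mul, abs_of_nonneg hQ]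
    have := cos_lip a e
    calc Q * |δ| * |Real.cos (a + e) - Real.cos a| ≤ Q * |δ| * |e| := by gcongr
      _ = (Q * |e|) * |δ| := by ring
      _ ≤ 2 * π * |δ| := by gcongr
  have a2 : |-(n * δ ^ 2 / 2 * (Real.sin (a + e) - Real.sin a))| ≤ 4 * π ^ 2 * |δ| := by
    rw [abs_neg, abs_mul, abs_div, abs_mul, abs_pow, abs_of_nonneg hn,
      abs_of_pos (by norm_num : (0 : ℝ) < 2)]
    have := sin_lip a e
    calc n * |δ| ^ 2 / 2 * |Real.sin (a + e) - Real.sin a|
        ≤ (2 * M) * |δ| ^ 2 / 2 * |e| := by gcongr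
      _ = (M * |δ| * |e|) * |δ| := by ring
      _ ≤ 4 * π ^ 2 * |δ| := by gcongr
  have a3 : |-(R * δ ^ 2 / 2 * Real.sin (a + e))| ≤ 2 * π * |δ| := by
    have b3 := Real.abs_sin_le_one (a + e)
    rw [abs_neg, abs_mul, abs_div, abs_mul, abs_pow, abs_of_nonneg hR,
      abs_of_pos (by norm_num : (0 : ℝ) < 2)]
    calc R * |δ| ^ 2 / 2 * |Real.sin (a + e)| ≤ R * |δ| ^ 2 / 1 * 1 := by
          gcongr; norm_num
      _ = (R * |δ|) * |δ| := by ring
      _ ≤ 2 * π * |δ| := by gcongr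
  calc _ ≤ 2 * π * |δ| + (4 * π ^ 2 * |δ| + 2 * π * |δ|) :=
        (abs_add_le _ _).trans (add_le_add a1 ((abs_add_le _ _).trans (add_le_add a2 a3)))
    _ = _ := by ring

/-- Stability of `A cos n - n B sin n`. -/
theorem e_gen {A B R e M n : ℝ} (a : ℝ) (hR : 0 ≤ R) (hn : 0 ≤ n) (hn2 : n ≤ 2 * M)
    (h1 : |A| ≤ 4 * π) (h2 : M * |B| ≤ 4 * π ^ 2) :
    |(A * Real.cos (a + e) - (n + R) * B * Real.sin (a + e))
      - (A * Real.cos a - n * B * Real.sin a)| ≤ (4 * π + 8 * π ^ 2) * |e| + R * |B| := by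
  have hpi := Real.pi_pos
  have hM : 0 ≤ M := by linarith
  have ee : (A * Real.cos (a + e) - (n + R) * B * Real.sin (a + e))
      - (A * Real.cos a - n * B * Real.sin a)
      = A * (Real.cos (a + e) - Real.cos a)
        + (- (n * B * (Real.sin (a + e) - Real.sin a)) + - (R * B * Real.sin (a + e))) := by
    ring
  rw [ee]
  have a1 : |A * (Real.cos (a + e) - Real.cos a)| ≤ 4 * π * |e| := by
    rw [abs_mul]
    have := cos_lip a e
    gcongr
  have a2 : |-(n * B * (Real.sin (a + e) - Real.sin a))| ≤ 8 * π ^ 2 * |e| := by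
    rw [abs_neg, abs_mul, abs_mul, abs_of_nonneg hn]
    have := sin_lip a e
    calc n * |B| * |Real.sin (a + e) - Real.sin a| ≤ (2 * M) * |B| * |e| := by gcongr
      _ = 2 * (M * |B|) * |e| := by ring
      _ ≤ 2 * (4 * π ^ 2) * |e| := by gcongr
      _ = _ := by ring
  have a3 : |-(R * B * Real.sin (a + e))| ≤ R * |B| := by
    have b3 := Real.abs_sin_le_one (a + e)
    rw [abs_neg, abs_mul, abs_mul, abs_of_nonneg hR]
    calc R * |B| * |Real.sin (a + e)| ≤ R * |B| * 1 := by gcongr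
      _ = _ := by ring
  calc _ ≤ 4 * π * |e| + (8 * π ^ 2 * |e| + R * |B|) :=
        (abs_add_le _ _).trans (add_le_add a1 ((abs_add_le _ _).trans (add_le_add a2 a3)))
    _ = _ := by ring

end Pool.Agent.H43.NS
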