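import Pool.Agent.H43.NS.Arith
import Pool.Agent.H43.NS.Trig
import Pool.Agent.H63.NS.NumDef

/-!
The arithmetic data (all fields of `NumData` except the equidistribution `ed`, which is a
hypothesis of `build`).
-/

set_option autoImplicit false

namespace Pool.Agent.H43.NS

open Filter Finset Topology Real Pool.Agent.H62.NSin Pool.Agent.H63.NS

/-- The linear coefficient. -/
noncomputable def bb (N n : ℕ) : ℝ := q1 N * Real.sin n + n * d1 N * Real.cos n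

/-- The quadratic coefficient. -/
noncomputable def cc (N n : ℕ) : ℝ := q1 N * d1 N * Real.cos n - n * d1 N ^ 2 / 2 * Real.sin n

/-- The step of the linear coefficient along the period `qs`. -/
noncomputable def eta (qs : ℕ → ℕ) (N n : ℕ) : ℝ :=
  (q1 N * dl (qs N) + qs N * d1 N) * Real.cos n - n * (d1 N * dl (qs N)) * Real.sin n

theorem sh_eq (n k q : ℕ) :
    ((n + k * q : ℕ) : ℝ) = (n + k * dl q) + (k * pr q : ℤ) * (2 * π) := by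
  unfold dl
  push_cast
  ring

theorem sin_sh (n k q : ℕ) : Real.sin ((n + k * q : ℕ) : ℝ) = Real.sin (n + k * dl q) := by
  rw [sh_eq, Real.sin_add_int_mul_two_pi]

theorem cos_sh (n k q : ℕ) : Real.cos ((n + k * q : ℕ) : ℝ) = Real.cos (n + k * dl q) := by
  rw [sh_eq, Real.cos_add_int_mul_two_pi]

theorem sin_sh1 (n q : ℕ) : Real.sin ((n + q : ℕ) : ℝ) = Real.sin (n + dl q) := by
  have := sin_sh n 1 q
  simpa using this

theorem cos_sh1 (n q : ℕ) : Real.cos ((n + q : ℕ) : ℝ) = Real.cos (n + dl q) := by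
  have := cos_sh n 1 q
  simpa using this

theorem lt_two {N n : ℕ} (h : n < 2 * N) : (n : ℝ) ≤ 2 * (N : ℝ) := by
  have : n ≤ 2 * N := h.le
  exact_mod_cast this

theorem small {f : ℕ → ℝ} {l : Filter ℕ} (h : Tendsto f l (𝓝 0)) (C : ℝ) {ε : ℝ} (hε : 0 < ε) :
    ∀ᶠ N in l, C * f N ≤ ε := by
  have h1 := h.const_mul C
  rw [mul_zero] at h1
  exact h1.eventually (ge_mem_nhds hε)

/-- Facts about the second period. -/
structure Per (𝒰 : Ultrafilter ℕ) (qs : ℕ → ℕ) : Prop where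
  le : ∀ᶠ N : ℕ in (𝒰 : Filter ℕ), qs N ≤ q1 N
  h1 : ∀ᶠ N : ℕ in (𝒰 : Filter ℕ), (q1 N : ℝ) * |dl (qs N)| ≤ 2 * π
  h2 : ∀ᶠ N : ℕ in (𝒰 : Filter ℕ), (qs N : ℝ) * |d1 N| ≤ 2 * π
  h3 : ∀ᶠ N : ℕ in (𝒰 : Filter ℕ), (N : ℝ) * |d1 N| * |dl (qs N)| ≤ 4 * π ^ 2
  h0 : Tendsto (fun N : ℕ => |dl (qs N)|) (𝒰 : Filter ℕ) (𝓝 0)

theorem per_q1 (𝒰 : Ultrafilter ℕ) (h : (𝒰 : Filter ℕ) ≤ atTop) : Per 𝒰 q1 where
  le := Eventually.of_forall fun _ => le_rfl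
  h1 := h (by filter_upwards [eventually_gt_atTop 0] with N hN using q1_d1 hN)
  h2 := h (by filter_upwards [eventually_gt_atTop 0] with N hN using q1_d1 hN)
  h3 := h (by
    filter_upwards [eventually_gt_atTop 0] with N hN
    have := N_d1_sq hN
    calc (N : ℝ) * |d1 N| * |dl (q1 N)| = N * |d1 N| ^ 2 := by
          unfold d1; ring
      _ ≤ _ := this)
  h0 := d1_tendsto.mono_left h

theorem per_q2 (𝒰 : Ultrafilter ℕ) (h : (𝒰 : Filter ℕ) ≤ atTop) : Per 𝒰 q2 where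
  le := h (by
    filter_upwards [(tendsto_atTop.1 q1_tendsto) 2] with N hN using (q2_spec hN).2.1.le)
  h1 := h (by filter_upwards [(tendsto_atTop.1 q1_tendsto) 2] with N hN using q1_d2 hN)
  h2 := h (by
    filter_upwards [(tendsto_atTop.1 q1_tendsto) 2, eventually_gt_atTop 0] with N hN hN0
    exact (q2_d1 hN).trans (q1_d1 hN0))
  h3 := h (by
    filter_upwards [(tendsto_atTop.1 q1_tendsto) 2, eventually_gt_atTop 0] with N hN hN0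
    exact N_d1_d2 hN0 hN)
  h0 := d2_tendsto.mono_left h

theorem u_exp (k : ℕ) {ε : ℝ} (hε : 0 < ε) : ∀ᶠ N : ℕ in atTop, ∀ n < 2 * N,
    |uu (n + k * q1 N) - (uu n + k * bb N n + k ^ 2 * cc N n)| ≤ ε := by
  filter_upwards [small d1_tendsto ((2 + k) * (3 * k ^ 3) * (4 * π ^ 2) + k ^ 3 * (2 * π)) hε,
    eventually_gt_atTop 0] with N hN hN0 n hn
  have h1 := u_gen (Q := q1 N) (δ := d1 N) (M := N) (n := n) k n (by positivity) (by positivity)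
    (lt_two hn) (by exact_mod_cast q1_le hN0) (q1_d1 hN0) (N_d1_sq hN0)
  refine le_trans (le_of_eq ?_) (h1.trans hN)
  unfold uu bb cc
  rw [sin_sh]
  unfold d1
  push_cast
  ring_nf

theorem b_exp {𝒰 : Ultrafilter ℕ} {qs : ℕ → ℕ} (P : Per 𝒰 qs) (k : ℕ)
    {ε : ℝ} (hε : 0 < ε) : ∀ᶠ N : ℕ in (𝒰 : Filter ℕ), ∀ n < 2 * N,
    |bb N (n + k * qs N) - (bb N n + k * eta qs N n)| ≤ ε := by
  filter_upwards [small P.h0 (8 * k ^ 2 * π + 24 * k ^ 2 * π ^ 2) hε, P.h1, P.h2, P.h3]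
    with N hN p1 p2 p3 n hn
  have h1 := b_gen (Q := q1 N) (δ := d1 N) (R := qs N) (e := dl (qs N)) (M := N) (n := n) k n
    (by positivity) (by positivity) (by positivity) (lt_two hn) p1 p2 p3
  refine le_trans (le_of_eq ?_) (h1.trans hN)
  unfold bb eta
  rw [sin_sh, cos_sh]
  push_cast
  ring_nf

theorem c_exp {𝒰 : Ultrafilter ℕ} (h : (𝒰 : Filter ℕ) ≤ atTop) {qs : ℕ → ℕ} (P : Per 𝒰 qs)
    {ε : ℝ} (hε : 0 < ε) : ∀ᶠ N : ℕ in (𝒰 : Filter ℕ), ∀ n < 2 * N,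
    |cc N (n + qs N) - cc N n| ≤ ε := by
  filter_upwards [small (d1_tendsto.mono_left h) (4 * π + 4 * π ^ 2) hε, P.h1, P.h2, P.h3]
    with N hN p1 p2 p3 n hn
  have h1 := c_gen (Q := q1 N) (δ := d1 N) (R := qs N) (e := dl (qs N)) (M := N) (n := n) n
    (by positivity) (by positivity) (by positivity) (lt_two hn) p1 p2 p3
  refine le_trans (le_of_eq ?_) (h1.trans hN)
  unfold cc
  rw [sin_sh1, cos_sh1]
  push_cast
  ring_nf

theorem A_bound {N : ℕ} {qs : ℕ → ℕ} (p1 : (q1 N : ℝ) * |dl (qs N)| ≤ 2 * π)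
    (p2 : (qs N : ℝ) * |d1 N| ≤ 2 * π) : |(q1 N : ℝ) * dl (qs N) + qs N * d1 N| ≤ 4 * π := by
  refine (abs_add_le _ _).trans ?_
  rw [abs_mul, abs_mul, Nat.abs_cast, Nat.abs_cast]
  linarith

theorem e_exp {𝒰 : Ultrafilter ℕ} (h : (𝒰 : Filter ℕ) ≤ atTop) {qs qr : ℕ → ℕ} (P : Per 𝒰 qs)
    (R : Per 𝒰 qr) (hR : ∀ᶠ N : ℕ in (𝒰 : Filter ℕ), (qr N : ℝ) * |d1 N * dl (qs N)|
      ≤ 2 * π * (|d1 N| + |dl (qs N)|))
    {ε : ℝ} (hε : 0 < ε) : ∀ᶠ N : ℕ in (𝒰 : Filter ℕ), ∀ n < 2 * N,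
    |eta qs N (n + qr N) - eta qs N n| ≤ ε := by
  have hε3 : 0 < ε / 3 := by positivity
  filter_upwards [small R.h0 (4 * π + 8 * π ^ 2) hε3, small (d1_tendsto.mono_left h) (2 * π) hε3,
    small P.h0 (2 * π) hε3, P.h1, P.h2, P.h3, hR] with N hN hN2 hN3 p1 p2 p3 p4 n hn
  have h1 := e_gen (A := q1 N * dl (qs N) + qs N * d1 N) (B := d1 N * dl (qs N)) (R := qr N)
    (e := dl (qr N)) (M := N) (n := n) n (by positivity) (by positivity) (lt_two hn)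
    (A_bound p1 p2) (by rw [abs_mul, ← mul_assoc]; exact p3)
  refine le_trans (le_of_eq ?_) (h1.trans ?_)
  · unfold eta
    rw [sin_sh1, cos_sh1]
    push_cast
    ring_nf
  · have : 2 * π * (|d1 N| + |dl (qs N)|) = 2 * π * |d1 N| + 2 * π * |dl (qs N)| := by ring
    linarith

theorem bounds {𝒰 : Ultrafilter ℕ} (h : (𝒰 : Filter ℕ) ≤ atTop) {qs : ℕ → ℕ} (P : Per 𝒰 qs) :
    ∀ᶠ N : ℕ in (𝒰 : Filter ℕ), ∀ n < 4 * N, |cc N n| ≤ 2 * π + 8 * π + 16 * π ^ 2 ∧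
      |eta qs N n| ≤ 2 * π + 8 * π + 16 * π ^ 2 ∧ |bb N n| ≤ (2 * π + 8 * π + 16 * π ^ 2) * N := by
  have hpi := Real.pi_pos
  have hpi1 : 1 ≤ π := by linarith [Real.pi_gt_three]
  filter_upwards [P.h1, P.h2, P.h3, h (eventually_gt_atTop 0)] with N p1 p2 p3 hN n hn
  have hn' : (n : ℝ) ≤ 4 * N := by
    have : n ≤ 4 * N := hn.le
    exact_mod_cast this
  have hs := Real.abs_sin_le_one n
  have hc := Real.abs_cos_le_one n
  have q1d := q1_d1 hN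
  have nd1 := N_d1 hN
  have nd2 := N_d1_sq hN
  refine ⟨?_, ?_, ?_⟩
  · unfold cc
    refine (abs_sub _ _).trans ?_
    have a1 : |(q1 N : ℝ) * d1 N * Real.cos n| ≤ 2 * π := by
      rw [abs_mul, abs_mul, Nat.abs_cast]
      calc (q1 N : ℝ) * |d1 N| * |Real.cos n| ≤ 2 * π * 1 := by
            gcongr ?_ * ?_
        _ = _ := by ring
    have a2 : |(n : ℝ) * d1 N ^ 2 / 2 * Real.sin n| ≤ 16 * π ^ 2 := by
      rw [abs_mul, abs_div, abs_mul, abs_pow, Nat.abs_cast, abs_of_pos (by norm_num : (0 : ℝ) < 2)]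
      calc (n : ℝ) * |d1 N| ^ 2 / 2 * |Real.sin n| ≤ (4 * N) * |d1 N| ^ 2 / 1 * 1 := by
            gcongr; norm_num
        _ = 4 * (N * |d1 N| ^ 2) := by ring
        _ ≤ 4 * (4 * π ^ 2) := by
            gcongr 4 * ?_
        _ = _ := by ring
    linarith
  · unfold eta
    refine (abs_sub _ _).trans ?_
    have a1 : |((q1 N : ℝ) * dl (qs N) + qs N * d1 N) * Real.cos n| ≤ 4 * π := by
      rw [abs_mul]
      have := A_bound p1 p2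
      calc |(q1 N : ℝ) * dl (qs N) + qs N * d1 N| * |Real.cos n| ≤ 4 * π * 1 := by gcongr
        _ = _ := by ring
    have a2 : |(n : ℝ) * (d1 N * dl (qs N)) * Real.sin n| ≤ 16 * π ^ 2 := by
      rw [abs_mul, abs_mul, abs_mul, Nat.abs_cast]
      calc (n : ℝ) * (|d1 N| * |dl (qs N)|) * |Real.sin n|
          ≤ (4 * N) * (|d1 N| * |dl (qs N)|) * 1 := by gcongr
        _ = 4 * (N * |d1 N| * |dl (qs N)|) := by ring
        _ ≤ 4 * (4 * π ^ 2) := by gcongr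
        _ = _ := by ring
    linarith
  · unfold bb
    refine (abs_add_le _ _).trans ?_
    have hq : (q1 N : ℝ) ≤ N := by exact_mod_cast q1_le hN
    have a1 : |(q1 N : ℝ) * Real.sin n| ≤ 2 * π * N := by
      rw [abs_mul, Nat.abs_cast]
      calc (q1 N : ℝ) * |Real.sin n| ≤ N * 1 := by gcongr
        _ ≤ 2 * π * N := by nlinarith [(Nat.cast_nonneg N : (0 : ℝ) ≤ N)]
    have a2 : |(n : ℝ) * d1 N * Real.cos n| ≤ 8 * π * N := by
      rw [abs_mul, abs_mul, Nat.abs_cast]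
      calc (n : ℝ) * |d1 N| * |Real.cos n| ≤ (4 * N) * |d1 N| * 1 := by gcongr
        _ = 4 * (N * |d1 N|) := by ring
        _ ≤ 4 * (2 * π * q1 N) := by
            gcongr 4 * ?_
        _ ≤ 4 * (2 * π * N) := by gcongr
        _ = _ := by ring
    have h16 : 0 ≤ 16 * π ^ 2 * N := by positivity
    nlinarith

/-- The equidistribution hypothesis for the period `qs`. -/
def EdH (𝒰 : Ultrafilter ℕ) (qs : ℕ → ℕ) : Prop :=
  ∀ (ρ : ℝ → ℝ) (m : ℝ), (∀ a, |ρ a| ≤ 1) →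
    (∀ ε : ℝ, 0 < ε → ∃ δ : ℝ, 0 < δ ∧ ∀ a a' : ℝ, |a - a'| ≤ δ → |ρ a - ρ a'| ≤ ε) →
    (∀ ε : ℝ, 0 < ε → ∃ L : ℕ, ∀ k ≥ L, ∀ K ≥ L, ∀ x : ℝ,
        |av (range (K * 2 ^ k)) (fun i => ρ (x + (i : ℝ) / 2 ^ k)) - m| ≤ ε) →
    ∀ ε : ℝ, 0 < ε → ∃ k0 : ℕ, ∀ k ≥ k0, ∀ᶠ N : ℕ in (𝒰 : Filter ℕ),
      |av (range N) (fun n => ρ (k * eta qs N n)) - m| ≤ ε

theorem le_small {𝒰 : Ultrafilter ℕ} (h : (𝒰 : Filter ℕ) ≤ atTop) {qs : ℕ → ℕ} (P : Per 𝒰 qs)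
    {ε : ℝ} (hε : 0 < ε) : ∀ᶠ N : ℕ in (𝒰 : Filter ℕ), (qs N : ℝ) ≤ ε * N := by
  filter_upwards [P.le, h (q1_small hε)] with N h1 h2
  have : (qs N : ℝ) ≤ q1 N := by exact_mod_cast h1
  exact this.trans h2

theorem build {𝒰 : Ultrafilter ℕ} (h : (𝒰 : Filter ℕ) ≤ atTop) {qs : ℕ → ℕ} (P : Per 𝒰 qs)
    (hed : EdH 𝒰 qs) : Nonempty (NumData 𝒰) := by
  have P1 := per_q1 𝒰 h
  refine ⟨{
    q1 := q1, qs := qs, b := bb, c := cc, η := eta qs, C := 2 * π + 8 * π + 16 * π ^ 2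
    q1_small := fun ε hε => le_small h P1 hε
    qs_small := fun ε hε => le_small h P hε
    u_q1 := fun k ε hε => h (u_exp k hε)
    b_q1 := fun k ε hε => ?_
    b_qs := fun k ε hε => b_exp P k hε
    c_q1 := fun ε hε => c_exp h P1 hε
    c_qs := fun ε hε => c_exp h P hε
    e_q1 := fun ε hε => e_exp h P P1 ?_ hε
    e_qs := fun ε hε => e_exp h P P ?_ hε
    bdd := bounds h P
    ed := hed }⟩
  · filter_upwards [b_exp P1 k hε] with N hN n hn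
    refine le_trans (le_of_eq ?_) (hN n hn)
    unfold eta cc d1
    ring_nf
  · filter_upwards [P.h1] with N p1
    rw [abs_mul]
    have hpi := Real.pi_pos
    calc (q1 N : ℝ) * (|d1 N| * |dl (qs N)|) = (q1 N * |dl (qs N)|) * |d1 N| := by ring
      _ ≤ 2 * π * |d1 N| := by gcongr
      _ ≤ 2 * π * (|d1 N| + |dl (qs N)|) := by
          gcongr
          linarith [abs_nonneg (dl (qs N))]
  · filter_upwards [P.h2] with N p1
    rw [abs_mul]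
    have hpi := Real.pi_pos
    calc (qs N : ℝ) * (|d1 N| * |dl (qs N)|) = (qs N * |d1 N|) * |dl (qs N)| := by ring
      _ ≤ 2 * π * |dl (qs N)| := by gcongr
      _ ≤ 2 * π * (|d1 N| + |dl (qs N)|) := by
          gcongr
          linarith [abs_nonneg (d1 N)]

/-- Limits along an ultrafilter. -/
theorem exists_lim (𝒰 : Ultrafilter ℕ) {f : ℕ → ℝ} {C : ℝ}
    (h : ∀ᶠ N : ℕ in (𝒰 : Filter ℕ), |f N| ≤ C) : ∃ A : ℝ, Tendsto f (𝒰 : Filter ℕ) (𝓝 A) := by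
  have h1 : ((𝒰.map f : Ultrafilter ℝ) : Filter ℝ) ≤ 𝓟 (Set.Icc (-C) C) := by
    rw [Filter.le_principal_iff, Ultrafilter.coe_map, Filter.mem_map]
    filter_upwards [h] with N hN
    exact abs_le.1 hN
  obtain ⟨A, _, hA⟩ := (isCompact_Icc (a := -C) (b := C)).ultrafilter_le_nhds _ h1
  exact ⟨A, hA⟩

/-- The form of the equidistribution theorem that is used. -/
def EdAll (𝒰 : Ultrafilter ℕ) : Prop :=
  ∀ (q : ℕ → ℕ) (p : ℕ → ℤ) (AN BN : ℕ → ℝ) (A B : ℝ),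
    Tendsto AN (𝒰 : Filter ℕ) (𝓝 A) → Tendsto BN (𝒰 : Filter ℕ) (𝓝 B) → (A ≠ 0 ∨ B ≠ 0) →
    Tendsto (fun N : ℕ => (q N : ℝ) - 2 * π * p N) (𝒰 : Filter ℕ) (𝓝 0) →
    (∀ᶠ N : ℕ in (𝒰 : Filter ℕ), Int.gcd (q N) (p N) = 1) →
    Tendsto (fun N : ℕ => (q N : ℝ) / N) (𝒰 : Filter ℕ) (𝓝 0) →
    Tendsto q (𝒰 : Filter ℕ) atTop →
    ∀ (ρ : ℝ → ℝ) (m : ℝ), (∀ a, |ρ a| ≤ 1) →
      (∀ ε : ℝ, 0 < ε → ∃ δ : ℝ, 0 < δ ∧ ∀ a a' : ℝ, |a - a'| ≤ δ → |ρ a - ρ a'| ≤ ε) →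
      (∀ ε : ℝ, 0 < ε → ∃ L : ℕ, ∀ k ≥ L, ∀ K ≥ L, ∀ x : ℝ,
          |av (range (K * 2 ^ k)) (fun i => ρ (x + (i : ℝ) / 2 ^ k)) - m| ≤ ε) →
      ∀ ε : ℝ, 0 < ε → ∃ k0 : ℕ, ∀ k ≥ k0, ∀ᶠ N : ℕ in (𝒰 : Filter ℕ),
        |av (range N) (fun n => ρ (k * (AN N * Real.cos n - ((n : ℝ) / N) * BN N * Real.sin n))) - m| ≤ ε

theorem q1_div (𝒰 : Ultrafilter ℕ) (h : (𝒰 : Filter ℕ) ≤ atTop) :
    Tendsto (fun N : ℕ => (q1 N : ℝ) / N) (𝒰 : Filter ℕ) (𝓝 0) := by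
  refine Tendsto.mono_left ?_ h
  rw [Metric.tendsto_atTop]
  intro ε hε
  have h1 := (q1_small (half_pos hε)).and (eventually_gt_atTop 0)
  obtain ⟨N0, hN0⟩ := Filter.eventually_atTop.1 h1
  refine ⟨N0, fun N hN => ?_⟩
  obtain ⟨h2, h3⟩ := hN0 N hN
  have h4 : (0 : ℝ) < N := by exact_mod_cast h3
  rw [Real.dist_eq, sub_zero, abs_of_nonneg (by positivity)]
  have : (q1 N : ℝ) / N ≤ ε / 2 := by rwa [div_le_iff₀ h4]
  linarith

theorem edH_of {𝒰 : Ultrafilter ℕ} (h : (𝒰 : Filter ℕ) ≤ atTop) (hE : EdAll 𝒰) {qs : ℕ → ℕ}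
    {A B : ℝ}
    (hA : Tendsto (fun N : ℕ => (q1 N : ℝ) * dl (qs N) + qs N * d1 N) (𝒰 : Filter ℕ) (𝓝 A))
    (hB : Tendsto (fun N : ℕ => (N : ℝ) * (d1 N * dl (qs N))) (𝒰 : Filter ℕ) (𝓝 B))
    (hAB : A ≠ 0 ∨ B ≠ 0) : EdH 𝒰 qs := by
  intro ρ m h1 h2 h3 ε hε
  have hd : Tendsto (fun N : ℕ => (q1 N : ℝ) - 2 * π * p1 N) (𝒰 : Filter ℕ) (𝓝 0) := by
    have := d1_tendsto.mono_left h
    exact (tendsto_zero_iff_abs_tendsto_zero _).2 this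
  obtain ⟨k0, hk0⟩ := hE q1 p1 _ _ A B hA hB hAB hd
    (h (by filter_upwards [eventually_gt_atTop 0] with N hN using gcd_one hN))
    (q1_div 𝒰 h) (q1_tendsto.mono_left h) ρ m h1 h2 h3 ε hε
  refine ⟨k0, fun k hk => ?_⟩
  filter_upwards [hk0 k hk, h (eventually_gt_atTop 0)] with N hN hN0
  have hNr : (N : ℝ) ≠ 0 := by
    have : N ≠ 0 := by omega
    exact_mod_cast this
  refine le_trans (le_of_eq ?_) hN
  congr 2
  refine av_congr fun n _ => ?_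
  congr 2
  unfold eta
  field_simp

theorem num_data_of {𝒰 : Ultrafilter ℕ} (h : (𝒰 : Filter ℕ) ≤ atTop) (hE : EdAll 𝒰) :
    Nonempty (NumData 𝒰) := by
  have P1 := per_q1 𝒰 h
  have P2 := per_q2 𝒰 h
  have hlim : ∀ {qs : ℕ → ℕ}, Per 𝒰 qs → ∃ A B : ℝ,
      Tendsto (fun N : ℕ => (q1 N : ℝ) * dl (qs N) + qs N * d1 N) (𝒰 : Filter ℕ) (𝓝 A) ∧
      Tendsto (fun N : ℕ => (N : ℝ) * (d1 N * dl (qs N))) (𝒰 : Filter ℕ) (𝓝 B) := by
    intro qs P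
    obtain ⟨A, hA⟩ := exists_lim 𝒰 (f := fun N => (q1 N : ℝ) * dl (qs N) + qs N * d1 N)
      (C := 4 * π) (by
        filter_upwards [P.h1, P.h2] with N p1 p2 using A_bound p1 p2)
    obtain ⟨B, hB⟩ := exists_lim 𝒰 (f := fun N => (N : ℝ) * (d1 N * dl (qs N)))
      (C := 4 * π ^ 2) (by
        filter_upwards [P.h3] with N p3
        rw [abs_mul, abs_mul, Nat.abs_cast, ← mul_assoc]
        exact p3)
    exact ⟨A, B, hA, hB⟩
  obtain ⟨A, B, hA, hB⟩ := hlim P1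
  by_cases hAB : A ≠ 0 ∨ B ≠ 0
  · exact build h P1 (edH_of h hE hA hB hAB)
  · push Not at hAB
    obtain ⟨hA0, hB0⟩ := hAB
    obtain ⟨A', B', hA', hB'⟩ := hlim P2
    refine build h P2 (edH_of h hE hA' hB' (Or.inl ?_))
    intro hA'0
    rw [hA0] at hA
    rw [hA'0] at hA'
    have hpi := Real.pi_pos
    have e1 : Tendsto (fun N : ℕ => |(q1 N : ℝ) * dl (q2 N) + q2 N * d1 N|) (𝒰 : Filter ℕ) (𝓝 0) := by
      have := hA'.abs
      rwa [abs_zero] at this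
    have e2 : Tendsto (fun N : ℕ => |(q1 N : ℝ) * dl (q1 N) + q1 N * d1 N|) (𝒰 : Filter ℕ) (𝓝 0) := by
      have := hA.abs
      rwa [abs_zero] at this
    have e3 := (e1.add e2).eventually (gt_mem_nhds (show (0 : ℝ) + 0 < 2 * π by linarith))
    have e4 : ∀ᶠ N : ℕ in (𝒰 : Filter ℕ), 2 ≤ q1 N := h ((tendsto_atTop.1 q1_tendsto) 2)
    have e5 : ∀ᶠ N : ℕ in (𝒰 : Filter ℕ), 0 < N := h (eventually_gt_atTop 0)
    obtain ⟨N, hN3, hN1, hN0⟩ := (e3.and (e4.and e5)).exists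
    have f1 := det_ge hN0 hN1
    have f2 := q2_d1 hN1
    have f3 : |(q1 N : ℝ) * dl (q1 N) + q1 N * d1 N| = 2 * (q1 N * |d1 N|) := by
      have : (q1 N : ℝ) * dl (q1 N) + q1 N * d1 N = 2 * (q1 N * d1 N) := by
        unfold d1; ring
      rw [this, abs_mul, abs_mul, Nat.abs_cast, abs_of_pos (by norm_num : (0 : ℝ) < 2)]
    have f4 : |(q1 N : ℝ) * d2 N - q2 N * d1 N| ≤ |(q1 N : ℝ) * dl (q2 N) + q2 N * d1 N|
        + 2 * (q2 N * |d1 N|) := by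
      have : (q1 N : ℝ) * d2 N - q2 N * d1 N
          = ((q1 N : ℝ) * dl (q2 N) + q2 N * d1 N) + (-2) * (q2 N * d1 N) := by
        unfold d2; ring
      rw [this]
      refine (abs_add_le _ _).trans ?_
      rw [abs_mul (-2 : ℝ), abs_mul, Nat.abs_cast, abs_neg, abs_of_pos (by norm_num : (0 : ℝ) < 2)]
    rw [f3] at hN3
    linarith

end Pool.Agent.H43.NS
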